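import Pool.Agent.Helper302.CLMain

/-!
# A theory of Hilbertian Banach spaces at unbounded distance from Hilbert space

A stronger form of the starting result `UnboundedDistortion`: the theory `T` found there is
categorical up to linear homeomorphism in every infinite density character, its models are, up to
linear homeomorphism, exactly the infinite-dimensional Hilbert spaces, and in every infinite density
character its models are at unbounded distance from Hilbert space.
-/

set_option autoImplicit false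

open scoped InnerProductSpace

namespace Pool.Agent.Results.MP_4e4c79_lc.AllDensities

open Pool.Agent.Helper302.CL Cardinal

variable {L : Signature}

/-- The density character of a space. -/
noncomputable def density (X : Type) [TopologicalSpace X] : Cardinal.{0} :=
  sInf {κ | ∃ D : Set X, Dense D ∧ #D = κ}

/-- Any two models of `T` (separable or not) whose underlying Banach spaces have the same density
character have linearly homeomorphic underlying Banach spaces. -/
def CategoricalInAllDensities (T : Set (Formula L 0)) : Prop :=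
  ∀ (V W : Type) [NormedAddCommGroup V] [NormedSpace ℝ V] [CompleteSpace V]
    [NormedAddCommGroup W] [NormedSpace ℝ W] [CompleteSpace W] (M : Structure L V)
    (N : Structure L W), Models M T → Models N T → density V = density W → Nonempty (V ≃L[ℝ] W)

/-- The underlying Banach spaces of the models of `T` are infinite-dimensional and linearly
homeomorphic to Hilbert spaces. -/
def ModelsAreHilbertian (T : Set (Formula L 0)) : Prop :=
  ∀ (V : Type) [NormedAddCommGroup V] [NormedSpace ℝ V] [CompleteSpace V] (M : Structure L V),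
    Models M T → ¬ FiniteDimensional ℝ V ∧
      ∃ (E : Type) (_ : NormedAddCommGroup E) (_ : InnerProductSpace ℝ E) (_ : CompleteSpace E),
        Nonempty (V ≃L[ℝ] E)

/-- Every infinite-dimensional Hilbert space is the underlying Banach space of a model of `T`. -/
def HilbertSpacesAreModels (T : Set (Formula L 0)) : Prop :=
  ∀ (E : Type) [NormedAddCommGroup E] [InnerProductSpace ℝ E] [CompleteSpace E],
    ¬ FiniteDimensional ℝ E → ∃ M : Structure L E, Models M T

/-- For every infinite-dimensional Hilbert space `E₀` and every `C` there is a model of `T`, with an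
underlying Banach space of the density character of `E₀`, such that every linear homeomorphism of
this Banach space onto a Hilbert space has distortion greater than `C`. -/
def FarFromHilbert (T : Set (Formula L 0)) : Prop :=
  ∀ (E₀ : Type) [NormedAddCommGroup E₀] [InnerProductSpace ℝ E₀] [CompleteSpace E₀],
    ¬ FiniteDimensional ℝ E₀ → ∀ C : ℝ, ∃ (V : Type) (_ : NormedAddCommGroup V)
      (_ : NormedSpace ℝ V) (_ : CompleteSpace V) (M : Structure L V), Models M T ∧
        density V = density E₀ ∧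
        ∀ (E : Type) [NormedAddCommGroup E] [InnerProductSpace ℝ E] [CompleteSpace E]
          (S : V ≃L[ℝ] E), C < ‖(S : V →L[ℝ] E)‖ * ‖(S.symm : E →L[ℝ] V)‖

theorem basis_infinite {E : Type} [NormedAddCommGroup E] [InnerProductSpace ℝ E] [CompleteSpace E]
    (hinf : ¬ FiniteDimensional ℝ E) {w : Set E} (b : HilbertBasis w ℝ E) : w.Infinite := by
  intro hfin
  apply hinf
  have : Fintype w := hfin.fintype
  exact (b.toOrthonormalBasis).toBasis.finiteDimensional_of_finite

theorem exists_seq (E : Type) [NormedAddCommGroup E] [InnerProductSpace ℝ E] [CompleteSpace E]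
    (hinf : ¬ FiniteDimensional ℝ E) : ∃ e : ℕ → E, Orthonormal ℝ e := by
  obtain ⟨w, b, hb⟩ := exists_hilbertBasis ℝ E
  have hon : Orthonormal ℝ (fun x : w => (x : E)) := by rw [← hb]; exact b.orthonormal
  have hinfw : w.Infinite := basis_infinite hinf b
  exact ⟨fun n => ((hinfw.natEmbedding w n : w) : E),
    hon.comp _ (hinfw.natEmbedding w).injective⟩

theorem seq_sep {E : Type} [NormedAddCommGroup E] [InnerProductSpace ℝ E] {ι : Type} {e : ι → E}
    (he : Orthonormal ℝ e) (i j : ι) (h : i ≠ j) : 1 ≤ ‖e i - e j‖ := by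
  have h1 : ‖e i‖ = 1 := he.1 i
  have h2 : ‖e j‖ = 1 := he.1 j
  have h3 : ⟪e i, e j⟫_ℝ = 0 := he.2 h
  have h4 : ‖e i - e j‖ ^ 2 = 2 := by
    rw [norm_sub_sq_real, h3, h1, h2]; norm_num
  nlinarith [norm_nonneg (e i - e j)]

/-- The model with the underlying space `E`. -/
noncomputable def ME {E : Type} [NormedAddCommGroup E] [InnerProductSpace ℝ E] (e : ℕ → E)
    (he : Orthonormal ℝ e) : Structure S0 E :=
  mkStr (fun x y => ⟪x, y⟫_ℝ) (fun x y z => inner_add_left x y z)
    (fun r x y => real_inner_smul_left x y r) (fun x y => real_inner_comm y x)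
    (fun _ => real_inner_self_nonneg) (fun x => (real_inner_self_eq_norm_sq x).le) e
    (fun i => (he.1 i).le)

theorem ME_models {E : Type} [NormedAddCommGroup E] [InnerProductSpace ℝ E] (e : ℕ → E)
    (he : Orthonormal ℝ e) : Models (ME e he) T0 := by
  have hf : ∀ x y, form (ME e he) x y = ⟪x, y⟫_ℝ := fun x y => rfl
  have hp : (par 0).eval (ME e he) Fin.elim0 = 0 := by
    refine le_antisymm (par_le _ _ _ fun x y _ _ => ?_) (par_nonneg _ _)
    have := parallelogram_law_with_norm ℝ x y
    unfold pdef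
    refine le_of_eq (abs_eq_zero.2 ?_)
    nlinarith
  rw [models_iff, hp]
  refine ⟨⟨?_, ?_, ?_, ?_, ?_⟩, fun i j hij => seq_sep he i j hij⟩
  · intro x y z; simp only [hf]; exact inner_add_left x y z
  · intro r x y; simp only [hf]; exact real_inner_smul_left x y r
  · intro x y; simp only [hf]; exact real_inner_comm y x
  · intro x; simp only [hf]; exact (real_inner_self_eq_norm_sq x).le
  · intro x; simp only [hf]
    have : min (0:ℝ) 1 = 0 := by norm_num
    rw [this, zero_mul]
    exact real_inner_self_nonneg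

theorem hilbertSpacesAreModels : HilbertSpacesAreModels T0 := by
  intro E _ _ _ hE
  obtain ⟨e, he⟩ := exists_seq E hE
  exact ⟨ME e he, ME_models e he⟩

theorem renorm' (V : Type) [NormedAddCommGroup V] [NormedSpace ℝ V] [CompleteSpace V]
    (B : V → V → ℝ)
    (hsymm : ∀ x y, B x y = B y x) (hadd : ∀ x y z, B (x + y) z = B x z + B y z)
    (hsmul : ∀ (r : ℝ) x y, B (r • x) y = r * B x y) (c : ℝ) (hc : 0 < c)
    (hlow : ∀ x, c * ‖x‖ ^ 2 ≤ B x x) (hup : ∀ x, B x x ≤ ‖x‖ ^ 2) :
    ∃ (E : Type) (_ : NormedAddCommGroup E) (_ : InnerProductSpace ℝ E) (_ : CompleteSpace E),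
      Nonempty (V ≃L[ℝ] E) := by
  let core : InnerProductSpace.Core ℝ (Cp V) :=
    { inner := fun x y => B ((toCp V).symm x) ((toCp V).symm y)
      conj_inner_symm := fun x y => hsymm _ _
      re_inner_nonneg := fun x => by
        have := hlow ((toCp V).symm x)
        have h2 : 0 ≤ c * ‖(toCp V).symm x‖ ^ 2 := by positivity
        exact h2.trans this
      add_left := fun x y z => by
        simp only [map_add]
        exact hadd _ _ _
      smul_left := fun x y r => by
        simp only [map_smul]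
        exact hsmul _ _ _
      definite := fun x hx => by
        have h1 := hlow ((toCp V).symm x)
        have hx' : B ((toCp V).symm x) ((toCp V).symm x) = 0 := hx
        rw [hx'] at h1
        have h2 : ‖(toCp V).symm x‖ ^ 2 ≤ 0 := by
          by_contra h
          push Not at h
          have := mul_pos hc h
          linarith
        have h3 : ‖(toCp V).symm x‖ = 0 := by nlinarith [norm_nonneg ((toCp V).symm x)]
        have h4 := norm_eq_zero.1 h3
        simpa using h4 }
  let N : NormedAddCommGroup (Cp V) := core.toNormedAddCommGroup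
  let I : InnerProductSpace ℝ (Cp V) := InnerProductSpace.ofCore core.toCore
  have hn : ∀ x : Cp V, ‖x‖ = Real.sqrt (B ((toCp V).symm x) ((toCp V).symm x)) := fun x => rfl
  have h1 : ∀ x : V, ‖toCp V x‖ ≤ 1 * ‖x‖ := by
    intro x
    rw [hn, one_mul, Real.sqrt_le_left (norm_nonneg x)]
    simpa using hup x
  have h2 : ∀ x : Cp V, ‖(toCp V).symm x‖ ≤ (Real.sqrt c)⁻¹ * ‖x‖ := by
    intro x
    rw [hn]
    have h4 := Real.sqrt_le_sqrt (hlow ((toCp V).symm x))
    rw [Real.sqrt_mul hc.le, Real.sqrt_sq (norm_nonneg _)] at h4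
    have h5 : 0 < Real.sqrt c := Real.sqrt_pos.2 hc
    rw [inv_mul_eq_div, le_div_iff₀ h5]
    linarith
  let E : V ≃L[ℝ] Cp V := (toCp V).toContinuousLinearEquivOfBounds 1 (Real.sqrt c)⁻¹ h1 h2
  have hcomp : CompleteSpace (Cp V) :=
    (completeSpace_congr (e := E.toEquiv) E.isUniformEmbedding).1 inferInstance
  exact ⟨Cp V, N, I, hcomp, ⟨E⟩⟩

theorem modelsAreHilbertian : ModelsAreHilbertian T0 := by
  intro V _ _ _ M hM
  obtain ⟨B, c, hc, b1, b2, b3, b4, b5⟩ := exists_form M hM
  exact ⟨not_finiteDimensional M hM, renorm' V B b1 b2 b3 c hc b4 b5⟩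

/-! ### density characters -/

theorem density_le {X : Type} [TopologicalSpace X] {D : Set X} (hD : Dense D) :
    density X ≤ #D := csInf_le' ⟨D, hD, rfl⟩

theorem exists_density (X : Type) [TopologicalSpace X] : ∃ D : Set X, Dense D ∧ #D = density X :=
  csInf_mem (s := {κ | ∃ D : Set X, Dense D ∧ #D = κ}) ⟨_, Set.univ, dense_univ, rfl⟩

theorem density_congr {X Y : Type} [TopologicalSpace X] [TopologicalSpace Y] (f : X ≃ₜ Y) :
    density X = density Y := by
  have key : ∀ {X Y : Type} [TopologicalSpace X] [TopologicalSpace Y] (f : X ≃ₜ Y),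
      density Y ≤ density X := by
    intro X Y _ _ f
    obtain ⟨D, hD, hDc⟩ := exists_density X
    rw [← hDc]
    have h1 : Dense (f '' D) := f.surjective.denseRange.dense_image f.continuous hD
    exact (density_le h1).trans Cardinal.mk_image_le
  exact le_antisymm (key f.symm) (key f)

/-- The density character of a Hilbert space is the cardinality of a Hilbert basis. -/
theorem density_hilbert {E : Type} [NormedAddCommGroup E] [InnerProductSpace ℝ E]
    [CompleteSpace E] (hinf : ¬ FiniteDimensional ℝ E) {w : Set E} (b : HilbertBasis w ℝ E)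
    (hb : ⇑b = ((↑) : w → E)) : density E = #w := by
  classical
  have hon : Orthonormal ℝ (fun x : w => (x : E)) := by rw [← hb]; exact b.orthonormal
  have hw : w.Infinite := basis_infinite hinf b
  have : Infinite w := hw.to_subtype
  apply le_antisymm
  · -- the rational combinations
    let f : (w →₀ ℚ) → E := fun c => c.sum fun x r => (r : ℝ) • (x : E)
    have hd : Dense (Set.range f) := by
      have hcl : ∀ y ∈ Submodule.span ℝ (Set.range b), y ∈ closure (Set.range f) := by
        intro y hy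
        rw [hb, Subtype.range_coe] at hy
        induction hy using Submodule.closure_induction with
        | zero => exact subset_closure ⟨0, by simp [f]⟩
        | add x y _ _ hx hy =>
          have hadd : ∀ c d, f c + f d = f (c + d) := by
            intro c d
            simp only [f]
            rw [Finsupp.sum_add_index']
            · intro x; simp
            · intro x r s; push_cast; rw [add_smul]
          have h1 : (x, y) ∈ closure (Set.range f ×ˢ Set.range f) := by
            rw [closure_prod_eq]; exact ⟨hx, hy⟩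
          have hmaps : Set.MapsTo (fun p : E × E => p.1 + p.2) (Set.range f ×ˢ Set.range f)
              (Set.range f) := by
            rintro ⟨_, _⟩ ⟨⟨c, rfl⟩, ⟨d, rfl⟩⟩
            exact ⟨c + d, (hadd c d).symm⟩
          exact map_mem_closure (f := fun p : E × E => p.1 + p.2) continuous_add h1 hmaps
        | smul_mem r x hx =>
          have h1 : r ∈ closure (Set.range ((↑) : ℚ → ℝ)) := by
            rw [Rat.isDenseEmbedding_coe_real.dense.closure_range]; trivial
          have h2 : Continuous fun s : ℝ => s • x := by fun_prop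
          have hmaps : Set.MapsTo (fun s : ℝ => s • x) (Set.range ((↑) : ℚ → ℝ))
              (Set.range f) := by
            rintro _ ⟨q, rfl⟩
            refine ⟨Finsupp.single ⟨x, hx⟩ q, ?_⟩
            simp only [f]
            rw [Finsupp.sum_single_index]
            simp
          exact map_mem_closure (f := fun s : ℝ => s • x) h2 h1 hmaps
      intro y
      have h1 : y ∈ closure (Submodule.span ℝ (Set.range b) : Set E) := by
        rw [← Submodule.topologicalClosure_coe, b.dense_span]; trivial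
      exact closure_minimal hcl isClosed_closure h1
    refine (density_le hd).trans (Cardinal.mk_range_le.trans ?_)
    rw [Cardinal.mk_finsupp_lift_of_infinite]
    simp
  · obtain ⟨D, hD, hDc⟩ := exists_density E
    rw [← hDc]
    have h1 : ∀ x : w, ∃ d : D, dist (x : E) d < 1 / 2 := by
      intro x
      obtain ⟨d, hd, hxd⟩ := hD.exists_dist_lt (x : E) (by norm_num : (0 : ℝ) < 1 / 2)
      exact ⟨⟨d, hd⟩, hxd⟩
    choose g hg using h1
    refine Cardinal.mk_le_of_injective (f := g) ?_
    intro x y hxy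
    by_contra hne
    have h2 := seq_sep hon x y hne
    have h3 : dist (x : E) y < 1 := by
      have h4 := hg x
      have h5 := hg y
      rw [hxy] at h4
      calc dist (x : E) y ≤ dist (x : E) (g y) + dist (g y : E) y := dist_triangle _ _ _
        _ < 1 := by rw [dist_comm (g y : E)]; linarith
    rw [dist_eq_norm] at h3
    linarith

theorem categoricalInAllDensities : CategoricalInAllDensities T0 := by
  intro V W _ _ _ _ _ _ M N hM hN hVW
  obtain ⟨hV, E, _, _, _, ⟨e⟩⟩ := modelsAreHilbertian V M hM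
  obtain ⟨hW, F, _, _, _, ⟨f⟩⟩ := modelsAreHilbertian W N hN
  have hE : ¬ FiniteDimensional ℝ E := fun h => hV (e.symm.toLinearEquiv.finiteDimensional)
  have hF : ¬ FiniteDimensional ℝ F := fun h => hW (f.symm.toLinearEquiv.finiteDimensional)
  obtain ⟨w, b, hb⟩ := exists_hilbertBasis ℝ E
  obtain ⟨w', b', hb'⟩ := exists_hilbertBasis ℝ F
  have h1 : #w = #w' := by
    rw [← density_hilbert hE b hb, ← density_hilbert hF b' hb',
      ← density_congr e.toHomeomorph, ← density_congr f.toHomeomorph, hVW]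
  obtain ⟨g⟩ := Cardinal.eq.1 h1
  have hon : Orthonormal ℝ (fun x : w => b' (g x)) := b'.orthonormal.comp g g.injective
  have hr : Set.range (fun x : w => b' (g x)) = Set.range b' := g.surjective.range_comp b'
  let c : HilbertBasis w ℝ F := HilbertBasis.mk hon (by rw [hr, b'.dense_span])
  exact ⟨(e.trans (b.repr.trans c.repr.symm).toContinuousLinearEquiv).trans f.symm⟩

theorem far (C : ℝ) : ∃ (k m : ℕ) (_ : 0 < m),
    4 * ((4 : ℝ) ^ (1 / ((k : ℝ) + 1)) - 1) * (m : ℝ) ^ (1 / ((k : ℝ) + 1)) ≤ 1 ∧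
      ∀ (E : Type) [NormedAddCommGroup E] [InnerProductSpace ℝ E] [CompleteSpace E]
        (S : Sp k m ≃L[ℝ] E),
        C < ‖(S : Sp k m →L[ℝ] E)‖ * ‖(S.symm : E →L[ℝ] Sp k m)‖ := by
  obtain ⟨N, hN⟩ := exists_nat_gt (max (C ^ 2) 1)
  obtain ⟨k, hk⟩ := exists_k N
  have hN1 : (1:ℝ) < N := (le_max_right _ _).trans_lt hN
  have hN2 : C ^ 2 < N := (le_max_left _ _).trans_lt hN
  have hNpos : 0 < N := by
    have : (0:ℝ) < N := by linarith
    exact_mod_cast this
  have hm : 0 < N ^ (k + 1) := Nat.pow_pos hNpos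
  have hpow : ((N ^ (k + 1) : ℕ) : ℝ) ^ (1 / ((k : ℝ) + 1)) = N := by
    push_cast
    rw [← Real.rpow_natCast, ← Real.rpow_mul (by positivity)]
    push_cast
    rw [mul_one_div_cancel (by positivity), Real.rpow_one]
  have hM := MS_models k (N ^ (k + 1)) ⟨0, hm⟩ (by rw [hpow]; exact hk)
  refine ⟨k, N ^ (k + 1), hm, by rw [hpow]; exact hk, ?_⟩
  intro E _ _ _ S
  have hV := not_finiteDimensional _ hM
  have hE : ¬ FiniteDimensional ℝ E := fun h => hV (S.symm.toLinearEquiv.finiteDimensional)
  have : TopologicalSpace.SeparableSpace E := S.surjective.denseRange.separableSpace S.continuous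
  obtain ⟨g⟩ := hilbert_equiv E H hE (not_finiteDimensional MH MH_models)
  have hd := distance hm (S.trans g.toContinuousLinearEquiv)
  rw [hpow] at hd
  set a := ‖(S : Sp k (N ^ (k + 1)) →L[ℝ] E)‖ with ha
  set b := ‖(S.symm : E →L[ℝ] Sp k (N ^ (k + 1)))‖ with hb
  have h1 : ‖((S.trans g.toContinuousLinearEquiv : Sp k (N ^ (k + 1)) ≃L[ℝ] H) :
      Sp k (N ^ (k + 1)) →L[ℝ] H)‖ ≤ a := by
    refine ContinuousLinearMap.opNorm_le_bound _ (norm_nonneg _) fun x => ?_
    have h2 : ‖g (S x)‖ = ‖S x‖ := g.norm_map _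
    have h3 := (S : Sp k (N ^ (k + 1)) →L[ℝ] E).le_opNorm x
    calc _ = ‖g (S x)‖ := rfl
      _ = ‖S x‖ := h2
      _ ≤ _ := h3
  have h2 : ‖((S.trans g.toContinuousLinearEquiv : Sp k (N ^ (k + 1)) ≃L[ℝ] H).symm :
      H →L[ℝ] Sp k (N ^ (k + 1)))‖ ≤ b := by
    refine ContinuousLinearMap.opNorm_le_bound _ (norm_nonneg _) fun x => ?_
    have h2 : ‖g.symm x‖ = ‖x‖ := g.symm.norm_map _
    have h3 := (S.symm : E →L[ℝ] Sp k (N ^ (k + 1))).le_opNorm (g.symm x)
    rw [h2] at h3
    exact h3
  have h3 : (N : ℝ) ≤ (a * b) ^ 2 := by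
    refine hd.trans (pow_le_pow_left₀ (by positivity) ?_ 2)
    exact mul_le_mul h1 h2 (norm_nonneg _) (norm_nonneg _)
  have h4 : 0 ≤ a * b := mul_nonneg (norm_nonneg _) (norm_nonneg _)
  by_contra hcon
  have h5 : a * b ≤ C := not_lt.1 hcon
  have h6 := pow_le_pow_left₀ h4 h5 2
  linarith


/-! ### sums with a Hilbert space -/

section sums

variable (k m : ℕ) (E₀ : Type) [NormedAddCommGroup E₀] [InnerProductSpace ℝ E₀]

/-- The sum of `Sp k m` and `E₀`. -/
abbrev SS : Type := WithLp 2 (Sp k m × E₀)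

variable {k m E₀}

/-- The form. -/
noncomputable def BB (x y : SS k m E₀) : ℝ := ip x.fst y.fst + ⟪x.snd, y.snd⟫_ℝ

theorem BB_add (x y z : SS k m E₀) : BB (x + y) z = BB x z + BB y z := by
  unfold BB
  rw [WithLp.add_fst, WithLp.add_snd, ip_add, inner_add_left]
  ring

theorem BB_smul (r : ℝ) (x y : SS k m E₀) : BB (r • x) y = r * BB x y := by
  unfold BB
  rw [WithLp.smul_fst, WithLp.smul_snd, ip_smul, real_inner_smul_left]
  ring

theorem BB_symm (x y : SS k m E₀) : BB x y = BB y x := by
  unfold BB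
  rw [ip_symm, real_inner_comm]

theorem BB_self (x : SS k m E₀) : BB x x = ip x.fst x.fst + ‖x.snd‖ ^ 2 := by
  unfold BB
  rw [real_inner_self_eq_norm_sq]

theorem BB_nonneg (x : SS k m E₀) : 0 ≤ BB x x := by
  rw [BB_self]
  have := ip_nonneg x.fst
  positivity

theorem BB_up (x : SS k m E₀) : BB x x ≤ ‖x‖ ^ 2 := by
  rw [BB_self, WithLp.prod_norm_sq_eq_of_L2]
  have := ip_up x.fst
  linarith

theorem fst_le (x : SS k m E₀) : ‖x.fst‖ ≤ ‖x‖ := by
  have := WithLp.prod_norm_sq_eq_of_L2 x
  nlinarith [norm_nonneg x, norm_nonneg x.fst, sq_nonneg ‖x.snd‖]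

/-- The model on the sum. -/
noncomputable def MB (e : ℕ → E₀) (he : Orthonormal ℝ e) : Structure S0 (SS k m E₀) :=
  mkStr BB BB_add BB_smul BB_symm BB_nonneg BB_up (fun i => WithLp.toLp 2 ((0 : Sp k m), e i))
    (fun i => by rw [WithLp.norm_toLp_snd]; exact (he.1 i).le)

theorem pdef_SS (x y : SS k m E₀) : pdef x y = pdef x.fst y.fst := by
  unfold pdef
  have h1 := parallelogram_law_with_norm ℝ x.snd y.snd
  rw [WithLp.prod_norm_sq_eq_of_L2 (x + y), WithLp.prod_norm_sq_eq_of_L2 (x - y),
    WithLp.prod_norm_sq_eq_of_L2 x, WithLp.prod_norm_sq_eq_of_L2 y, WithLp.add_fst,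
    WithLp.add_snd, WithLp.sub_fst, WithLp.sub_snd]
  congr 1
  nlinarith

theorem MB_models (e : ℕ → E₀) (he : Orthonormal ℝ e)
    (h : 4 * ((4 : ℝ) ^ (1 / ((k : ℝ) + 1)) - 1) * (m : ℝ) ^ (1 / ((k : ℝ) + 1)) ≤ 1) :
    Models (MB (k := k) (m := m) e he) T0 := by
  have hf : ∀ x y, form (MB (k := k) (m := m) e he) x y = BB x y := fun x y => rfl
  have hp : (par 0).eval (MB (k := k) (m := m) e he) Fin.elim0 ≤
      4 * ((4 : ℝ) ^ (1 / ((k : ℝ) + 1)) - 1) :=
    par_le _ _ _ fun x y hx hy => by
      rw [pdef_SS]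
      exact pdef_le _ _ ((fst_le x).trans hx) ((fst_le y).trans hy)
  rw [models_iff]
  refine ⟨⟨?_, ?_, ?_, ?_, ?_⟩, fun i j hij => ?_⟩
  · intro x y z; simp only [hf]; exact BB_add x y z
  · intro r x y; simp only [hf]; exact BB_smul r x y
  · intro x y; simp only [hf]; exact BB_symm x y
  · intro x; simp only [hf]; exact BB_up x
  · intro x
    simp only [hf]
    set δ := (par 0).eval (MB (k := k) (m := m) e he) Fin.elim0 with hδ
    have h1 := ip_low x.fst
    have h2 : min δ 1 ≤ 4 * ((4 : ℝ) ^ (1 / ((k : ℝ) + 1)) - 1) := (min_le_left _ _).trans hp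
    have hK : 0 ≤ 4 * ((4 : ℝ) ^ (1 / ((k : ℝ) + 1)) - 1) := by
      have : (1:ℝ) ≤ (4 : ℝ) ^ (1 / ((k : ℝ) + 1)) :=
        Real.one_le_rpow (by norm_num) (by positivity)
      linarith
    have h3 : min δ 1 * ‖x.fst‖ ^ 2 ≤ ip x.fst x.fst := by
      calc min δ 1 * ‖x.fst‖ ^ 2 ≤ 4 * ((4 : ℝ) ^ (1 / ((k : ℝ) + 1)) - 1) * ‖x.fst‖ ^ 2 :=
            mul_le_mul_of_nonneg_right h2 (by positivity)
        _ ≤ 4 * ((4 : ℝ) ^ (1 / ((k : ℝ) + 1)) - 1) *
            ((m : ℝ) ^ (1 / ((k : ℝ) + 1)) * ip x.fst x.fst) := mul_le_mul_of_nonneg_left h1 hK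
        _ = (4 * ((4 : ℝ) ^ (1 / ((k : ℝ) + 1)) - 1) * (m : ℝ) ^ (1 / ((k : ℝ) + 1))) *
            ip x.fst x.fst := by ring
        _ ≤ 1 * ip x.fst x.fst := mul_le_mul_of_nonneg_right h (ip_nonneg _)
        _ = ip x.fst x.fst := one_mul _
    have h4 : min δ 1 * ‖x.snd‖ ^ 2 ≤ ‖x.snd‖ ^ 2 := by
      have h5 : min δ 1 ≤ 1 := min_le_right _ _
      nlinarith [sq_nonneg ‖x.snd‖]
    rw [BB_self, WithLp.prod_norm_sq_eq_of_L2]
    linarith
  · show 1 ≤ ‖(WithLp.toLp 2 ((0 : Sp k m), e i) : SS k m E₀) - WithLp.toLp 2 ((0 : Sp k m), e j)‖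
    have h1 := WithLp.prod_norm_sq_eq_of_L2
      ((WithLp.toLp 2 ((0 : Sp k m), e i) : SS k m E₀) - WithLp.toLp 2 ((0 : Sp k m), e j))
    rw [WithLp.sub_fst, WithLp.sub_snd] at h1
    have h2 := seq_sep he i j hij
    have h3 : ‖(WithLp.toLp 2 ((0 : Sp k m), e i) : SS k m E₀).snd -
        (WithLp.toLp 2 ((0 : Sp k m), e j) : SS k m E₀).snd‖ = ‖e i - e j‖ := rfl
    rw [h3] at h1
    nlinarith [norm_nonneg ((WithLp.toLp 2 ((0 : Sp k m), e i) : SS k m E₀) -
      WithLp.toLp 2 ((0 : Sp k m), e j)), sq_nonneg ‖(WithLp.toLp 2 ((0 : Sp k m), e i) :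
      SS k m E₀).fst - (WithLp.toLp 2 ((0 : Sp k m), e j) : SS k m E₀).fst‖]

theorem density_SS [CompleteSpace E₀] (hE : ¬ FiniteDimensional ℝ E₀) :
    density (SS k m E₀) = density E₀ := by
  apply le_antisymm
  · obtain ⟨D, hD, hDc⟩ := exists_density E₀
    obtain ⟨D', hD'1, hD'2⟩ := TopologicalSpace.exists_countable_dense (Sp k m)
    have h1 : Dense ((WithLp.prodContinuousLinearEquiv 2 ℝ (Sp k m) E₀).symm '' (D' ×ˢ D)) := by
      refine (WithLp.prodContinuousLinearEquiv 2 ℝ (Sp k m)
        E₀).symm.surjective.denseRange.dense_image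
        (WithLp.prodContinuousLinearEquiv 2 ℝ (Sp k m) E₀).symm.continuous (hD'2.prod hD)
    have hinf : ℵ₀ ≤ #D := by
      obtain ⟨w, b, hb⟩ := exists_hilbertBasis ℝ E₀
      rw [hDc, density_hilbert hE b hb]
      have : Infinite w := (basis_infinite hE b).to_subtype
      exact Cardinal.aleph0_le_mk w
    rw [← hDc]
    refine (density_le h1).trans (Cardinal.mk_image_le.trans ?_)
    rw [Cardinal.mk_setProd]
    have h2 : #D' ≤ ℵ₀ := Cardinal.le_aleph0_iff_set_countable.2 hD'1
    calc #D' * #D ≤ ℵ₀ * #D := mul_le_mul' h2 le_rfl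
      _ = #D := by rw [Cardinal.aleph0_mul_eq hinf]
  · obtain ⟨D, hD, hDc⟩ := exists_density (SS k m E₀)
    rw [← hDc]
    have h1 : Dense ((fun x : SS k m E₀ => x.snd) '' D) := by
      have hs : Function.Surjective (fun x : SS k m E₀ => x.snd) :=
        fun y => ⟨WithLp.toLp 2 ((0 : Sp k m), y), rfl⟩
      have hc : Continuous (fun x : SS k m E₀ => x.snd) :=
        continuous_snd.comp (WithLp.prodContinuousLinearEquiv 2 ℝ (Sp k m) E₀).continuous
      exact hs.denseRange.dense_image hc hD
    exact (density_le h1).trans Cardinal.mk_image_le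

theorem restrict [CompleteSpace E₀] {E : Type} [NormedAddCommGroup E] [InnerProductSpace ℝ E]
    [CompleteSpace E] (S : SS k m E₀ ≃L[ℝ] E) :
    ∃ (F : Type) (_ : NormedAddCommGroup F) (_ : InnerProductSpace ℝ F) (_ : CompleteSpace F)
      (R : Sp k m ≃L[ℝ] F), ‖(R : Sp k m →L[ℝ] F)‖ * ‖(R.symm : F →L[ℝ] Sp k m)‖ ≤
        ‖(S : SS k m E₀ →L[ℝ] E)‖ * ‖(S.symm : E →L[ℝ] SS k m E₀)‖ := by
  let j : Sp k m →ₗ[ℝ] SS k m E₀ :=
    ((WithLp.prodContinuousLinearEquiv 2 ℝ (Sp k m) E₀).symm :
      (Sp k m × E₀) ≃ₗ[ℝ] SS k m E₀).toLinearMap ∘ₗ LinearMap.inl ℝ (Sp k m) E₀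
  have hj : ∀ x, ‖j x‖ = ‖x‖ := fun x => WithLp.norm_toLp_fst 2 (Sp k m) E₀ x
  let f : Sp k m →ₗ[ℝ] E := (S : SS k m E₀ ≃ₗ[ℝ] E).toLinearMap ∘ₗ j
  have hfx : ∀ x, f x = S (j x) := fun x => rfl
  have hinj : Function.Injective f := by
    intro x y h
    have h1 : j x = j y := S.injective h
    have h2 : j (x - y) = 0 := by rw [map_sub, h1, sub_self]
    have h3 := hj (x - y)
    rw [h2, norm_zero] at h3
    exact sub_eq_zero.1 (norm_eq_zero.1 h3.symm)
  let R₀ : Sp k m ≃ₗ[ℝ] LinearMap.range f := LinearEquiv.ofInjective f hinj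
  have hR1 : ∀ x, ‖R₀ x‖ ≤ ‖(S : SS k m E₀ →L[ℝ] E)‖ * ‖x‖ := by
    intro x
    have h1 : ‖R₀ x‖ = ‖S (j x)‖ := rfl
    rw [h1, ← hj x]
    exact (S : SS k m E₀ →L[ℝ] E).le_opNorm (j x)
  have hR2 : ∀ y, ‖R₀.symm y‖ ≤ ‖(S.symm : E →L[ℝ] SS k m E₀)‖ * ‖y‖ := by
    intro y
    obtain ⟨x, rfl⟩ := R₀.surjective y
    rw [LinearEquiv.symm_apply_apply]
    have h1 : ‖R₀ x‖ = ‖S (j x)‖ := rfl
    have h2 := (S.symm : E →L[ℝ] SS k m E₀).le_opNorm (S (j x))
    have h3 : (S.symm : E →L[ℝ] SS k m E₀) (S (j x)) = j x := S.symm_apply_apply (j x)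
    rw [h3, hj] at h2
    rw [h1]
    exact h2
  let R : Sp k m ≃L[ℝ] LinearMap.range f := R₀.toContinuousLinearEquivOfBounds _ _ hR1 hR2
  have hcomp : CompleteSpace (LinearMap.range f) :=
    (completeSpace_congr (e := R.toEquiv) R.isUniformEmbedding).1 inferInstance
  refine ⟨LinearMap.range f, inferInstance, inferInstance, hcomp, R, ?_⟩
  refine mul_le_mul ?_ ?_ (ContinuousLinearMap.opNorm_nonneg _)
    (ContinuousLinearMap.opNorm_nonneg _)
  · exact ContinuousLinearMap.opNorm_le_bound _ (ContinuousLinearMap.opNorm_nonneg _) hR1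
  · exact ContinuousLinearMap.opNorm_le_bound _ (ContinuousLinearMap.opNorm_nonneg _) hR2

end sums

theorem farFromHilbert : FarFromHilbert T0 := by
  intro E₀ _ _ _ hE₀ C
  obtain ⟨k, m, hm, h1, h2⟩ := far C
  obtain ⟨e, he⟩ := exists_seq E₀ hE₀
  refine ⟨SS k m E₀, inferInstance, inferInstance, inferInstance, MB e he, MB_models e he h1,
    density_SS hE₀, ?_⟩
  intro E _ _ _ S
  obtain ⟨F, _, _, _, R, hR⟩ := restrict S
  exact (h2 F R).trans_le hR

/-- There is a theory `T` of continuous logic, in a signature containing the signature of real Banach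
spaces, such that
(1) the underlying Banach spaces of any two separable models of `T` are linearly homeomorphic, but
for no constant `C` do any two separable models admit a linear homeomorphism of distortion at most
`C`;
(2) any two models of the same density character have linearly homeomorphic underlying Banach
spaces;
(3) the underlying Banach spaces of the models are, up to linear homeomorphism, exactly the
infinite-dimensional Hilbert spaces;
(4) in every infinite density character the models are at unbounded distance from Hilbert space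
(so in each of them they are all linearly homeomorphic, with unbounded distortions). -/
theorem result : ∃ (L : Signature) (T : Set (Formula L 0)),
    SeparablyCategorical T ∧ (∀ C : ℝ, ¬ DistortionAtMost T C) ∧ CategoricalInAllDensities T ∧
      ModelsAreHilbertian T ∧ HilbertSpacesAreModels T ∧ FarFromHilbert T :=
  ⟨S0, T0, categorical, unbounded, categoricalInAllDensities, modelsAreHilbertian,
    hilbertSpacesAreModels, farFromHilbert⟩

end Pool.Agent.Results.MP_4e4c79_lc.AllDensities
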